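import Mathlib

set_option autoImplicit false

namespace Pool.Agent.Results.MP_dbe012_pr.Counter

open MeasureTheory ProbabilityTheory Set Filter Topology
open scoped ENNReal

/-- the quantile function `F⁻¹(p) = inf {x | F(x) ≥ p}` of a law -/
noncomputable def Q (μ : Measure ℝ) (p : ℝ) : ℝ := sInf {x | p ≤ cdf μ x}

/-- `Finv μ n` is `F^{[-(n+1)]}` -/
noncomputable def Finv (μ : Measure ℝ) : ℕ → ℝ → ℝ
  | 0 => Q μ
  | n + 1 => fun p => ∫ u in (0 : ℝ)..p, Finv μ n u

/-- strict `n`-th degree inverse stochastic dominance `X <ₙ⁻ Y` of laws -/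
def IsdLt (n : ℕ) (μ ν : Measure ℝ) : Prop :=
  (∀ p ∈ Ioo (0 : ℝ) 1, Finv μ (n - 1) p ≤ Finv ν (n - 1) p) ∧
    ∃ p ∈ Ioo (0 : ℝ) 1, Finv μ (n - 1) p < Finv ν (n - 1) p

/-- the mean of the minimum of `k` independent copies, `k ∫₀¹ F⁻¹(u) (1-u)^(k-1) du` -/
noncomputable def meanMin (μ : Measure ℝ) (k : ℕ) : ℝ :=
  k * ∫ u in (0 : ℝ)..1, Q μ u * (1 - u) ^ (k - 1)

lemma Q_le (μ : Measure ℝ) {u : ℝ} (hu : u ∈ Ioo (0 : ℝ) 1) (x : ℝ) : Q μ u ≤ x ↔ u ≤ cdf μ x := by
  obtain ⟨a, ha⟩ := ((tendsto_cdf_atTop μ).eventually (lt_mem_nhds hu.2)).exists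
  obtain ⟨b, hb⟩ := eventually_atBot.mp ((tendsto_cdf_atBot μ).eventually (gt_mem_nhds hu.1))
  refine ⟨fun h => ?_, fun h => csInf_le ⟨b, fun y hy => ?_⟩ h⟩
  · refine ge_of_tendsto (((cdf μ).right_continuous x).mono Ioi_subset_Ici_self) ?_
    filter_upwards [self_mem_nhdsWithin] with y hy
    obtain ⟨t, ht, h2⟩ := exists_lt_of_csInf_lt ⟨a, ha.le⟩ (h.trans_lt hy)
    exact ht.trans (monotone_cdf μ h2.le)
  · by_contra h'
    exact (hb y (not_le.mp h').le).not_ge hy

lemma Q_meas (μ : Measure ℝ) : AEMeasurable (Q μ) (volume.restrict (Ioo 0 1)) :=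
  aemeasurable_restrict_of_monotoneOn measurableSet_Ioo fun a ha b hb h =>
    (Q_le μ ha _).mpr (h.trans ((Q_le μ hb _).mp le_rfl))

lemma Q_int (μ : Measure ℝ) [IsProbabilityMeasure μ] (h : Integrable id μ) :
    IntervalIntegrable (Q μ) volume 0 1 := by
  have : (volume.restrict (Ioo 0 1)).map (Q μ) = μ := by
    refine Measure.ext_of_Iic _ _ fun t => ?_
    rw [Measure.map_apply_of_aemeasurable (Q_meas μ) measurableSet_Iic,
      Measure.restrict_apply' measurableSet_Ioo, ← ofReal_cdf]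
    have h0 := cdf_nonneg μ t
    have h1 := cdf_le_one μ t
    apply le_antisymm
    · refine (measure_mono (t := Icc 0 (cdf μ t)) fun u hu => ⟨hu.2.1.le, (Q_le μ hu.2 t).mp hu.1⟩).trans ?_
      simp
    · refine le_trans ?_ (measure_mono (s := Ioo 0 (cdf μ t)) fun u hu =>
        ⟨(Q_le μ ⟨hu.1, hu.2.trans_le h1⟩ t).mpr hu.2.le, hu.1, hu.2.trans_le h1⟩)
      simp
  rw [intervalIntegrable_iff_integrableOn_Ioo_of_le zero_le_one]
  rw [← this] at h
  exact (integrable_map_measure aestronglyMeasurable_id (Q_meas μ)).mp h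

lemma ibp (g : ℝ → ℝ) (hg : IntervalIntegrable g volume 0 1) (k : ℕ) :
    ∫ u in (0 : ℝ)..1, g u * (1 - u) ^ (k + 1) =
      (k + 1) * ∫ u in (0 : ℝ)..1, (∫ v in (0 : ℝ)..u, g v) * (1 - u) ^ k := by
  have h := (ContDiffOn.absolutelyContinuousOnInterval (f := fun u : ℝ => (1 - u) ^ (k + 1))
    (by fun_prop)).integral_mul_deriv_eq_deriv_mul
    (hg.absolutelyContinuousOnInterval_intervalIntegral (c := 0) (by simp))
  have hd : ∀ u : ℝ, deriv (fun u : ℝ => (1 - u) ^ (k + 1)) u = -((k + 1) * (1 - u) ^ k) := fun u => by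
    have := (((hasDerivAt_id' u).const_sub 1).fun_pow (k + 1)).deriv
    simpa using this
  simp only [hd, sub_self, intervalIntegral.integral_same] at h
  rw [← intervalIntegral.integral_const_mul]
  trans ∫ u in (0 : ℝ)..1, (1 - u) ^ (k + 1) * deriv (fun x => ∫ v in (0 : ℝ)..x, g v) u
  · apply intervalIntegral.integral_congr_ae
    filter_upwards [hg.ae_hasDerivAt_integral] with u h1 h2
    rw [(h1 (uIoc_subset_uIcc h2) 0 (by simp)).deriv, mul_comm]
  · rw [h]
    simp only [ne_eq, Nat.add_eq_zero_iff, one_ne_zero, and_false, not_false_eq_true, zero_pow, zero_mul,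
      mul_zero, sub_self, zero_sub, ← intervalIntegral.integral_neg]
    congr 1; ext u; ring

lemma mean_lt (μ ν : Measure ℝ) (hμ : IntervalIntegrable (Q μ) volume 0 1)
    (hν : IntervalIntegrable (Q ν) volume 0 1) (h : IsdLt 3 μ ν) :
    ∫ u in (0 : ℝ)..1, Q μ u * (1 - u) ^ 2 < ∫ u in (0 : ℝ)..1, Q ν u * (1 - u) ^ 2 := by
  have c : ∀ g : ℝ → ℝ, IntervalIntegrable g volume 0 1 →
      ContinuousOn (fun u => ∫ v in (0 : ℝ)..u, g v) (Icc 0 1) := fun g hg => by
    simpa using (hg.absolutelyContinuousOnInterval_intervalIntegral (c := 0) (by simp)).continuousOn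
  have i1 := (c _ hμ).intervalIntegrable_of_Icc (μ := volume) zero_le_one
  have i2 := (c _ hν).intervalIntegrable_of_Icc (μ := volume) zero_le_one
  rw [ibp _ hμ 1, ibp _ hν 1, ibp _ i1 0, ibp _ i2 0]
  simp only [pow_zero, mul_one]
  obtain ⟨h1, p, hp, h2⟩ := h
  have := intervalIntegral.integral_lt_integral_of_continuousOn_of_le_of_exists_lt zero_lt_one
    (c _ i1) (c _ i2) (fun x hx => le_on_closure h1 (by simpa [Finv] using c _ i1) (by simpa [Finv] using c _ i2)
      (by simpa using Ioc_subset_Icc_self hx)) ⟨p, Ioo_subset_Icc_self hp, h2⟩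
  push_cast
  linarith

lemma cmp (α β : Measure ℝ) [IsFiniteMeasure α] [IsFiniteMeasure β] (hu : α univ = β univ)
    (h : ∀ t, α (Ioi t) ≤ β (Ioi t)) (hα : Integrable id α) (hβ : Integrable id β) :
    ∫ x, x ∂α ≤ ∫ x, x ∂β := by
  have p : ∀ γ : Measure ℝ, ∫⁻ x, ENNReal.ofReal x ∂γ = ∫⁻ t in Ioi 0, γ (Ioi t) := fun γ => by
    have := lintegral_eq_lintegral_meas_lt γ (f := fun x => max x 0) (ae_of_all _ fun x => by simp)
      (by fun_prop)
    simp only [ENNReal.ofReal_max, ENNReal.ofReal_zero, zero_le, sup_of_le_left] at this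
    rw [this]
    refine setLIntegral_congr_fun measurableSet_Ioi fun t ht => ?_
    congr 1; ext x; simp [(show 0 < t from ht).not_gt]
  have n : ∀ γ : Measure ℝ, ∫⁻ x, ENNReal.ofReal (-x) ∂γ = ∫⁻ t in Ioi 0, γ (Ioi (-t))ᶜ := fun γ => by
    have := lintegral_eq_lintegral_meas_le γ (f := fun x => max (-x) 0) (ae_of_all _ fun x => by simp)
      (by fun_prop)
    simp only [ENNReal.ofReal_max, ENNReal.ofReal_zero, zero_le, sup_of_le_left] at this
    rw [this]
    refine setLIntegral_congr_fun measurableSet_Ioi fun t ht => ?_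
    congr 1; ext x; simp [not_le.mpr (show 0 < t from ht), le_neg]
  have e1 := integral_eq_lintegral_pos_part_sub_lintegral_neg_part hα
  have e2 := integral_eq_lintegral_pos_part_sub_lintegral_neg_part hβ
  simp only [id] at e1 e2
  rw [e1, e2]
  refine sub_le_sub (ENNReal.toReal_mono hβ.lintegral_lt_top.ne ?_)
    (ENNReal.toReal_mono hα.neg.lintegral_lt_top.ne ?_)
  · rw [p, p]; exact lintegral_mono h
  · rw [n, n]
    refine lintegral_mono fun t => ?_
    simp only [measure_compl measurableSet_Ioi (measure_ne_top _ _), hu]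
    exact tsub_le_tsub_left (h _) _

noncomputable def rho : Measure ℝ :=
  (volume.restrict (Ioo 0 1)).withDensity fun u => ENNReal.ofReal (3 * (1 - u) ^ 2)

lemma rho_Ioo (c : ℝ) (S : Set ℝ) (h1 : c ≤ 1) (h : S ∩ Ioo 0 1 = Ioo c 1) :
    rho S = ENNReal.ofReal ((1 - c) ^ 3) := by
  rw [rho, withDensity_apply', Measure.restrict_restrict' measurableSet_Ioo, h,
    ← ofReal_integral_eq_lintegral_ofReal ((Continuous.integrableOn_Icc (by fun_prop)).mono_set
      Ioo_subset_Icc_self) (ae_of_all _ fun u => by positivity), ← integral_Ioc_eq_integral_Ioo,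
    ← intervalIntegral.integral_of_le h1, intervalIntegral.integral_const_mul,
    intervalIntegral.integral_comp_sub_left (fun u => u ^ 2), integral_pow]
  congr 1; ring

instance : IsProbabilityMeasure rho := ⟨by simpa using rho_Ioo 0 univ zero_le_one (by simp)⟩

lemma rho_Q (μ : Measure ℝ) (t c : ℝ) :
    rho ((fun u => Q μ u + c) ⁻¹' Ioi t) = ENNReal.ofReal ((1 - cdf μ (t - c)) ^ 3) := by
  refine rho_Ioo _ _ (cdf_le_one _ _) (Set.ext fun u => ⟨fun h => ⟨?_, h.2.2⟩, fun h => ?_⟩)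
  · by_contra h'
    linarith [(Q_le μ h.2 _).mpr (not_lt.mp h'), show t < Q μ u + c from h.1]
  · have hu : u ∈ Ioo (0 : ℝ) 1 := ⟨(cdf_nonneg _ _).trans_lt h.1, h.2⟩
    refine ⟨?_, hu⟩
    by_contra h'
    exact ((Q_le μ hu _).mp (by simpa [le_sub_iff_add_le] using h')).not_gt h.1

lemma rho_int (g : ℝ → ℝ) (hg : IntervalIntegrable g volume 0 1) :
    Integrable g rho ∧ ∫ u, g u ∂rho = 3 * ∫ u in (0 : ℝ)..1, g u * (1 - u) ^ 2 := by
  have e : ∀ u : ℝ, (ENNReal.ofReal (3 * (1 - u) ^ 2)).toReal = 3 * (1 - u) ^ 2 := fun u =>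
    ENNReal.toReal_ofReal (by positivity)
  constructor
  · rw [rho, integrable_withDensity_iff (by fun_prop) (ae_of_all _ fun u => ENNReal.ofReal_lt_top)]
    simp only [e]
    exact (intervalIntegrable_iff_integrableOn_Ioo_of_le zero_le_one).mp
      (hg.mul_continuousOn (by fun_prop))
  · rw [rho, integral_withDensity_eq_integral_toReal_smul (by fun_prop) (ae_of_all _ fun u => ENNReal.ofReal_lt_top),
      ← intervalIntegral.integral_const_mul, intervalIntegral.integral_of_le zero_le_one,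
      integral_Ioc_eq_integral_Ioo]
    simp only [e, smul_eq_mul]
    congr 1; ext u; ring

lemma cmp' (f1 f2 g1 g2 : ℝ → ℝ) (h1 : Integrable f1 rho) (h2 : Integrable f2 rho)
    (h3 : Integrable g1 rho) (h4 : Integrable g2 rho)
    (h : ∀ t, 3 * rho (f1 ⁻¹' Ioi t) + rho (f2 ⁻¹' Ioi t) ≤ 3 * rho (g1 ⁻¹' Ioi t) + rho (g2 ⁻¹' Ioi t)) :
    3 * ∫ u, f1 u ∂rho + ∫ u, f2 u ∂rho ≤ 3 * ∫ u, g1 u ∂rho + ∫ u, g2 u ∂rho := by
  have k : ∀ f g : ℝ → ℝ, Integrable f rho → Integrable g rho → ∃ α : Measure ℝ, α univ = 3 + 1 ∧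
      (∀ t, α (Ioi t) = 3 * rho (f ⁻¹' Ioi t) + rho (g ⁻¹' Ioi t)) ∧ Integrable id α ∧
      ∫ x, x ∂α = 3 * ∫ u, f u ∂rho + ∫ u, g u ∂rho := fun f g hf hg => by
    have a1 := ((integrable_map_measure aestronglyMeasurable_id hf.aemeasurable).mpr hf).smul_measure
      (c := (3 : ℝ≥0∞)) (by simp)
    have a2 := (integrable_map_measure aestronglyMeasurable_id hg.aemeasurable).mpr hg
    refine ⟨(3 : ℝ≥0∞) • rho.map f + rho.map g, ?_, fun t => ?_, a1.add_measure a2, ?_⟩
    · simp [Measure.map_apply_of_aemeasurable, hf.aemeasurable, hg.aemeasurable]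
    · simp [Measure.map_apply_of_aemeasurable, hf.aemeasurable, hg.aemeasurable]
    · rw [integral_add_measure (f := fun x => x) a1 a2, integral_smul_measure,
        integral_map hf.aemeasurable (by fun_prop), integral_map hg.aemeasurable (by fun_prop)]
      simp
  obtain ⟨α, a1, a2, a3, a4⟩ := k _ _ h1 h2
  obtain ⟨β, b1, b2, b3, b4⟩ := k _ _ h3 h4
  have : IsFiniteMeasure α := ⟨by rw [a1]; simp⟩
  have : IsFiniteMeasure β := ⟨by rw [b1]; simp⟩
  rw [← a4, ← b4]
  exact cmp α β (a1.trans b1.symm) (fun t => by rw [a2, b2]; exact h t) a3 b3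

/-- the law with mass `s` at `a` and `1 - s` at `b` -/
noncomputable def two (s a b : ℝ) : Measure ℝ :=
  ENNReal.ofReal s • Measure.dirac a + ENNReal.ofReal (1 - s) • Measure.dirac b

lemma two_conv (s a b : ℝ) (h0 : 0 ≤ s) (h1 : s ≤ 1) (ν : Measure ℝ) [IsProbabilityMeasure ν]
    (hν : Integrable id ν) : IsProbabilityMeasure (two s a b ∗ ν) ∧ Integrable id (two s a b ∗ ν) ∧
      ∀ t, cdf (two s a b ∗ ν) t = s * cdf ν (t - a) + (1 - s) * cdf ν (t - b) := by
  have e : two s a b ∗ ν = ENNReal.ofReal s • ν.map (a + ·) + ENNReal.ofReal (1 - s) • ν.map (b + ·) := by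
    have := fun (c : ℝ) (x : ℝ) => (Measure.smul_finite (Measure.dirac x) (c := ENNReal.ofReal c) (by simp))
    rw [two, Measure.add_conv, Measure.conv_smul_left, Measure.conv_smul_left, Measure.dirac_conv,
      Measure.dirac_conv]
  have m : ∀ c : ℝ, Measurable fun x : ℝ => c + x := fun c => by fun_prop
  have i : ∀ c d : ℝ, Integrable id (ENNReal.ofReal d • ν.map (c + ·)) := fun c d =>
    ((integrable_map_measure aestronglyMeasurable_id (m c).aemeasurable).mpr
      ((integrable_const c).add hν)).smul_measure (by simp)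
  have : IsProbabilityMeasure (two s a b ∗ ν) := ⟨by
    simp [e, Measure.map_apply (m _), ← ENNReal.ofReal_add h0 (sub_nonneg.mpr h1)]⟩
  refine ⟨this, e ▸ (i _ _).add_measure (i _ _), fun t => ?_⟩
  rw [cdf_eq_real, cdf_eq_real, cdf_eq_real, e, measureReal_def]
  simp [Measure.map_apply (m _), ENNReal.toReal_add, ENNReal.mul_eq_top, h0, h1, measureReal_def]

lemma two_mean (s a b : ℝ) (h0 : 0 ≤ s) (h1 : s ≤ 1) (hab : a ≤ b) (k : ℕ) :
    IsProbabilityMeasure (two s a b) ∧ Integrable id (two s a b) ∧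
      meanMin (two s a b) (k + 1) = a + (b - a) * (1 - s) ^ (k + 1) := by
  obtain ⟨p, i, c⟩ := two_conv s a b h0 h1 (Measure.dirac 0) (integrable_dirac (by simp))
  have : SFinite (two s a b) := by unfold two; infer_instance
  rw [Measure.conv_dirac_zero] at p i c
  refine ⟨p, i, ?_⟩
  have hq : ∀ u ∈ Ioo (0 : ℝ) 1, Q (two s a b) u = if u ≤ s then a else b := fun u hu =>
    eq_of_forall_ge_iff fun x => by
      rw [Q_le _ hu, c, cdf_eq_real, cdf_eq_real]
      obtain ⟨h2, h3⟩ := hu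
      by_cases h4 : a ≤ x <;> by_cases h5 : b ≤ x <;> split_ifs <;>
        simp [measureReal_def, h4, h5] <;> linarith
  have hi := (Q_int _ i).mul_continuousOn (g := fun u => (1 - u) ^ k) (by fun_prop)
  have s1 : uIcc 0 s ⊆ uIcc (0 : ℝ) 1 := uIcc_subset_uIcc (by simp) (by simp [*])
  have s2 : uIcc s 1 ⊆ uIcc (0 : ℝ) 1 := uIcc_subset_uIcc (by simp [*]) (by simp)
  have ae1 : ∀ᵐ u : ℝ, u ≠ 1 := by simp [ae_iff]
  rw [meanMin, Nat.add_sub_cancel, ← intervalIntegral.integral_add_adjacent_intervals (hi.mono_set s1)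
    (hi.mono_set s2), intervalIntegral.integral_congr_ae (g := fun u => a * (1 - u) ^ k),
    intervalIntegral.integral_congr_ae (a := s) (g := fun u => b * (1 - u) ^ k)]
  · simp only [intervalIntegral.integral_const_mul,
      intervalIntegral.integral_comp_sub_left (fun u => u ^ k), integral_pow]
    push_cast
    field_simp
    ring
  · filter_upwards [ae1] with u hu h
    rw [uIoc_of_le h1] at h
    rw [hq u ⟨h0.trans_lt h.1, lt_of_le_of_ne h.2 hu⟩, if_neg h.1.not_ge]
  · filter_upwards [ae1] with u hu h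
    rw [uIoc_of_le h0] at h
    rw [hq u ⟨h.1, lt_of_le_of_ne (h.2.trans h1) hu⟩, if_pos h.2]

theorem result : ∃ n > 2, ∃ X Y : Measure ℝ, IsProbabilityMeasure X ∧ IsProbabilityMeasure Y ∧
    Integrable id X ∧ Integrable id Y ∧ (∀ k, 1 ≤ k → k ≤ n - 1 → meanMin X k = meanMin Y k) ∧
    meanMin X n > meanMin Y n ∧
    ∀ Z : Measure ℝ, IsProbabilityMeasure Z → Integrable id Z → ¬IsdLt n (X ∗ Z) (Y ∗ Z) := by
  have hX := two_mean (2 / 3) (-1) 2 (by norm_num) (by norm_num) (by norm_num)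
  have hY := two_mean (1 / 3) (-2) 1 (by norm_num) (by norm_num) (by norm_num)
  refine ⟨3, by norm_num, _, _, (hX 0).1, (hY 0).1, (hX 0).2.1, (hY 0).2.1, fun k h1 h2 => ?_,
    by rw [(hX 2).2.2, (hY 2).2.2]; norm_num, fun Z _ hZ h => ?_⟩
  · obtain rfl | rfl : k = 0 + 1 ∨ k = 1 + 1 := by omega
    all_goals rw [(hX _).2.2, (hY _).2.2]; norm_num
  obtain ⟨_, iA, cA⟩ := two_conv (2 / 3) (-1) 2 (by norm_num) (by norm_num) Z hZ
  obtain ⟨_, iB, cB⟩ := two_conv (1 / 3) (-2) 1 (by norm_num) (by norm_num) Z hZ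
  have hl := mean_lt _ _ (Q_int _ iA) (Q_int _ iB) h
  obtain ⟨a1, a2⟩ := rho_int _ (Q_int _ iA)
  obtain ⟨b1, b2⟩ := rho_int _ (Q_int _ iB)
  obtain ⟨z1, -⟩ := rho_int _ (Q_int _ hZ)
  have := cmp' _ _ _ _ (b1.add (integrable_const 1)) (z1.add (integrable_const (-1)))
    (a1.add (integrable_const 0)) (z1.add (integrable_const 2)) fun t => ?_
  · simp only [Pi.add_apply, integral_add b1 (integrable_const _), integral_add a1 (integrable_const _),
      integral_add z1 (integrable_const _), integral_const, probReal_univ, one_smul] at this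
    linarith
  · simp only [Pi.add_def, rho_Q, cA, cB, sub_zero]
    rw [show t - 1 - -2 = t - -1 by ring, show t - 1 - 1 = t - 2 by ring]
    have h1 := monotone_cdf Z (show t - 2 ≤ t - -1 by linarith)
    have h2 := cdf_le_one Z (t - -1)
    generalize cdf Z (t - -1) = x at *
    generalize cdf Z (t - 2) = y at *
    obtain ⟨u, rfl⟩ : ∃ u, x = 1 - u := ⟨1 - x, by ring⟩
    obtain ⟨v, rfl⟩ : ∃ v, y = 1 - u - v := ⟨1 - u - y, by ring⟩
    have hu : 0 ≤ u := by linarith
    have hv : 0 ≤ v := by linarith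
    have k : ∀ p q : ℝ, 0 ≤ p → 0 ≤ q → 3 * ENNReal.ofReal (p ^ 3) + ENNReal.ofReal (q ^ 3) =
        ENNReal.ofReal (3 * p ^ 3 + q ^ 3) := fun p q hp hq => by
      rw [ENNReal.ofReal_add (by positivity) (by positivity), ENNReal.ofReal_mul (by norm_num)]; simp
    rw [k _ _ (by linarith) (by linarith), k _ _ (by linarith) (by linarith)]
    exact ENNReal.ofReal_le_ofReal (by nlinarith [pow_nonneg hv 3])

end Pool.Agent.Results.MP_dbe012_pr.Counter
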